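import Pool.Agent.TH371.Apy.Defs

/-!
# Infinite log-convexity of the Apery numbers: assembly (perturbation and large-ratio region)
-/

set_option autoImplicit false

namespace Pool.Agent.TH590.Apy

open Finset Pool.Agent.TH371.Apy

theorem L_scale (C t : ℝ) (g : ℕ → ℝ) (m : ℕ) :
    L (fun n => C * t ^ n * g n) m = (C ^ 2 * t ^ 2) * (t ^ 2) ^ m * L g m := by
  simp only [L]
  ring

theorem iter_scale {C t : ℝ} (hC : 0 < C) (ht : 0 < t) (b : ℕ → ℝ) (k : ℕ) :
    ∃ C' t' : ℝ, 0 < C' ∧ 0 < t' ∧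
      ∀ m, (L^[k]) (fun n => C * t ^ n * b n) m = C' * t' ^ m * (L^[k]) b m := by
  induction k with
  | zero => exact ⟨C, t, hC, ht, fun m => rfl⟩
  | succ k ih =>
    obtain ⟨C', t', hC', ht', h⟩ := ih
    refine ⟨C' ^ 2 * t' ^ 2, t' ^ 2, by positivity, by positivity, fun m => ?_⟩
    rw [Function.iterate_succ_apply', Function.iterate_succ_apply', ← L_scale]
    congr 1
    funext n
    exact h n

theorem good_scale {C t : ℝ} (hC : 0 < C) (ht : 0 < t) {b : ℕ → ℝ} (hb : GoodSeq b) :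
    GoodSeq (fun n => C * t ^ n * b n) := by
  intro k m
  obtain ⟨C', t', hC', ht', h⟩ := iter_scale hC ht b k
  obtain ⟨h1, h2⟩ := hb k m
  refine ⟨?_, ?_⟩
  · rw [h]; positivity
  · rw [h, h, h]
    have e : 0 ≤ C' ^ 2 * t' ^ (2 * m + 2) := by positivity
    have h3 := mul_le_mul_of_nonneg_left h2 e
    calc Real.exp (cc k / ((m : ℝ) + k + 3 / 2) ^ 2) * (C' * t' ^ (m + 1) * (L^[k]) b (m + 1)) ^ 2
        = C' ^ 2 * t' ^ (2 * m + 2) * (Real.exp (cc k / ((m : ℝ) + k + 3 / 2) ^ 2) *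
            ((L^[k]) b (m + 1)) ^ 2) := by ring
      _ ≤ C' ^ 2 * t' ^ (2 * m + 2) * ((L^[k]) b m * (L^[k]) b (m + 2)) := h3
      _ = C' * t' ^ m * (L^[k]) b m * (C' * t' ^ (m + 2) * (L^[k]) b (m + 2)) := by ring

/-- one step of the perturbation argument -/
theorem step {A B : ℕ → ℝ} {n : ℕ} {d x : ℝ} (hB0 : 0 < B n) (hB1 : 0 < B (n + 1))
    (hB2 : 0 < B (n + 2)) (h0 : |A n - B n| ≤ d * B n) (h1 : |A (n + 1) - B (n + 1)| ≤ d * B (n + 1))
    (h2 : |A (n + 2) - B (n + 2)| ≤ d * B (n + 2)) (hd0 : 0 ≤ d) (hd1 : d ≤ 1) (hx : 0 < x)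
    (hr : (1 + x) * B (n + 1) ^ 2 ≤ B n * B (n + 2)) :
    |L A n - L B n| ≤ d * (3 * (1 + 2 / x)) * L B n := by
  have key : ∀ {a a' b b' : ℝ}, 0 < b → 0 < b' → |a - b| ≤ d * b → |a' - b'| ≤ d * b' →
      |a * a' - b * b'| ≤ 3 * d * (b * b') := by
    intro a a' b b' hb hb' h h'
    have e : a * a' - b * b' = (a - b) * (a' - b') + (a - b) * b' + b * (a' - b') := by ring
    calc |a * a' - b * b'| = |(a - b) * (a' - b') + (a - b) * b' + b * (a' - b')| := by rw [e]
      _ ≤ |(a - b) * (a' - b')| + |(a - b) * b'| + |b * (a' - b')| := by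
          refine (abs_add_le _ _).trans ?_
          gcongr
          exact abs_add_le _ _
      _ = |a - b| * |a' - b'| + |a - b| * b' + b * |a' - b'| := by
          rw [abs_mul, abs_mul, abs_mul, abs_of_pos hb, abs_of_pos hb']
      _ ≤ (d * b) * (d * b') + (d * b) * b' + b * (d * b') := by
          gcongr
      _ = (2 * d + d * d) * (b * b') := by ring
      _ ≤ 3 * d * (b * b') := by
          have : d * d ≤ d := by nlinarith
          have hbb : 0 < b * b' := by positivity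
          nlinarith
  have k1 := key hB0 hB2 h0 h2
  have k2 := key hB1 hB1 h1 h1
  have hq : 0 < B (n + 1) ^ 2 := by positivity
  have e : L A n - L B n = (A n * A (n + 2) - B n * B (n + 2)) -
      (A (n + 1) * A (n + 1) - B (n + 1) * B (n + 1)) := by
    simp only [L]; ring
  have k3 : |L A n - L B n| ≤ 3 * d * (B n * B (n + 2)) + 3 * d * (B (n + 1) * B (n + 1)) := by
    rw [e]
    exact (abs_sub _ _).trans (add_le_add k1 k2)
  have k4 : B n * B (n + 2) + B (n + 1) ^ 2 ≤ (1 + 2 / x) * L B n := by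
    have e2 : (1 + 2 / x) * L B n - (B n * B (n + 2) + B (n + 1) ^ 2) =
        (2 / x) * (B n * B (n + 2) - (1 + x) * B (n + 1) ^ 2) := by
      simp only [L]
      field_simp
      ring
    have : 0 ≤ (2 / x) * (B n * B (n + 2) - (1 + x) * B (n + 1) ^ 2) :=
      mul_nonneg (by positivity) (by linarith)
    linarith
  calc |L A n - L B n| ≤ 3 * d * (B n * B (n + 2)) + 3 * d * (B (n + 1) * B (n + 1)) := k3
    _ = 3 * d * (B n * B (n + 2) + B (n + 1) ^ 2) := by ring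
    _ ≤ 3 * d * ((1 + 2 / x) * L B n) := by gcongr
    _ = d * (3 * (1 + 2 / x)) * L B n := by ring

theorem cc_pos (k : ℕ) : 0 < cc k := by
  unfold cc
  have : (1 : ℝ) ≤ 2 ^ k := one_le_pow₀ (by norm_num)
  linarith

/-- the accumulated relative error -/
noncomputable def dd (m K i : ℕ) : ℝ :=
  (1 / 4) ^ m * ∏ j ∈ range i, (3 * (1 + 2 * ((m : ℝ) + 2 * K + 2) ^ 2 / cc j))

theorem factor_ge (m K j : ℕ) : 1 ≤ 3 * (1 + 2 * ((m : ℝ) + 2 * K + 2) ^ 2 / cc j) := by
  have := cc_pos j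
  have : 0 ≤ 2 * ((m : ℝ) + 2 * K + 2) ^ 2 / cc j := by positivity
  linarith

theorem dd_nonneg (m K i : ℕ) : 0 ≤ dd m K i := by
  unfold dd
  refine mul_nonneg (by positivity) (prod_nonneg fun j _ => ?_)
  linarith [factor_ge m K j]

theorem dd_mono (m K : ℕ) : Monotone (dd m K) := by
  refine monotone_nat_of_le_succ fun i => ?_
  unfold dd
  rw [prod_range_succ, ← mul_assoc]
  refine le_mul_of_one_le_right ?_ (factor_ge m K i)
  exact dd_nonneg m K i

theorem dd_le {m K : ℕ}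
    (h : 100 * ∏ i ∈ Finset.range K, (3 * (1 + 2 * ((m : ℝ) + 2 * K + 2) ^ 2 / cc i)) ≤ 4 ^ m)
    {i : ℕ} (hi : i ≤ K) : dd m K i ≤ 1 / 100 := by
  refine (dd_mono m K hi).trans ?_
  unfold dd
  have h4 : (0 : ℝ) < (1 / 4) ^ m := by positivity
  have e : ((1 : ℝ) / 4) ^ m * 4 ^ m = 1 := by rw [← mul_pow]; norm_num
  have := mul_le_mul_of_nonneg_left h h4.le
  rw [e] at this
  linarith

/-- the perturbation argument -/
theorem perturb {a b : ℕ → ℝ} (hb : GoodSeq b) (hc : Close a b) {m K : ℕ} (hm : 52 ≤ m)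
    (h : 100 * ∏ i ∈ Finset.range K, (3 * (1 + 2 * ((m : ℝ) + 2 * K + 2) ^ 2 / cc i)) ≤ 4 ^ m) :
    ∃ B : ℕ → ℝ, GoodSeq B ∧ ∀ i, i ≤ K → ∀ n, m ≤ n → n + 2 * i ≤ m + 2 * K + 2 →
      |(L^[i]) a n - (L^[i]) B n| ≤ 1 / 100 * (L^[i]) B n := by
  obtain ⟨C, t, hC, ht, hcl⟩ := hc m hm
  refine ⟨fun n => C * t ^ n * b n, good_scale hC ht hb, ?_⟩
  set B : ℕ → ℝ := fun n => C * t ^ n * b n with hBdef
  have hB : GoodSeq B := good_scale hC ht hb
  have main : ∀ i, i ≤ K → ∀ n, m ≤ n → n + 2 * i ≤ m + 2 * K + 2 →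
      |(L^[i]) a n - (L^[i]) B n| ≤ dd m K i * (L^[i]) B n := by
    intro i
    induction i with
    | zero =>
      intro _ n hn _
      have := hcl n hn
      simpa [dd, hBdef] using this
    | succ i ih =>
      intro hiK n hn hn2
      have hi : i ≤ K := by omega
      have i0 := ih hi n hn (by omega)
      have i1 := ih hi (n + 1) (by omega) (by omega)
      have i2 := ih hi (n + 2) (by omega) (by omega)
      have hx : 0 < cc i / ((m : ℝ) + 2 * K + 2) ^ 2 := div_pos (cc_pos i) (by positivity)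
      have hz : ((n : ℝ) + i + 3 / 2) ≤ (m : ℝ) + 2 * K + 2 := by
        have : (n : ℝ) + 2 * (i + 1) ≤ m + 2 * K + 2 := by exact_mod_cast hn2
        have hi0 : (0 : ℝ) ≤ i := by positivity
        linarith
      have hz0 : (0 : ℝ) < (n : ℝ) + i + 3 / 2 := by positivity
      have hr : (1 + cc i / ((m : ℝ) + 2 * K + 2) ^ 2) * (L^[i]) B (n + 1) ^ 2 ≤
          (L^[i]) B n * (L^[i]) B (n + 2) := by
        refine le_trans ?_ (hB i n).2
        refine mul_le_mul_of_nonneg_right ?_ (by positivity)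
        have e1 : cc i / ((m : ℝ) + 2 * K + 2) ^ 2 ≤ cc i / ((n : ℝ) + i + 3 / 2) ^ 2 := by
          have := (cc_pos i).le
          gcongr
        have e2 := Real.add_one_le_exp (cc i / ((n : ℝ) + i + 3 / 2) ^ 2)
        linarith
      have hs := step (A := (L^[i]) a) (B := (L^[i]) B) (n := n) (hB i n).1 (hB i (n + 1)).1
        (hB i (n + 2)).1 i0 i1 i2 (dd_nonneg m K i) ((dd_le h hi).trans (by norm_num)) hx hr
      rw [Function.iterate_succ_apply', Function.iterate_succ_apply']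
      have e : dd m K (i + 1) = dd m K i * (3 * (1 + 2 / (cc i / ((m : ℝ) + 2 * K + 2) ^ 2))) := by
        unfold dd
        rw [prod_range_succ, ← mul_assoc]
        congr 3
        rw [div_div_eq_mul_div]
      rw [e]
      exact hs
  intro i hi n hn hn2
  refine (main i hi n hn hn2).trans ?_
  exact mul_le_mul_of_nonneg_right (dd_le h hi) (hB i n).1.le

/-- consequences of the perturbation argument -/
theorem perturb_pos {a b : ℕ → ℝ} (hb : GoodSeq b) (hc : Close a b) {m K : ℕ} (hm : 52 ≤ m)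
    (h : 100 * ∏ i ∈ Finset.range K, (3 * (1 + 2 * ((m : ℝ) + 2 * K + 2) ^ 2 / cc i)) ≤ 4 ^ m)
    {i : ℕ} (hi : i ≤ K) : 0 < (L^[i]) a m := by
  obtain ⟨B, hB, hp⟩ := perturb hb hc hm h
  have h1 := hp i hi m le_rfl (by omega)
  have h2 := (hB i m).1
  have := (abs_le.1 h1).1
  linarith

/-- the constant `(3 + √5) / 2` -/
noncomputable def rr : ℝ := (3 + √5) / 2

theorem rr_eq : (rr - 1) ^ 2 = rr := by
  have h5 : √5 ^ 2 = (5 : ℝ) := Real.sq_sqrt (by norm_num)
  unfold rr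
  nlinarith

theorem sqrt5_lt : √5 < (2.238 : ℝ) := by
  rw [Real.sqrt_lt' (by norm_num)]
  norm_num

theorem sqrt5_gt : (2 : ℝ) < √5 := by
  rw [Real.lt_sqrt (by norm_num)]
  norm_num

theorem rr_lt : rr < 2.619 := by
  unfold rr
  linarith [sqrt5_lt]

theorem rr_gt : 2 < rr := by
  unfold rr
  linarith [sqrt5_gt]

theorem perturb_ratio {a b : ℕ → ℝ} (hb : GoodSeq b) (hc : Close a b) {m K : ℕ} (hm : 52 ≤ m)
    (h : 100 * ∏ i ∈ Finset.range K, (3 * (1 + 2 * ((m : ℝ) + 2 * K + 2) ^ 2 / cc i)) ≤ 4 ^ m)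
    (hz : 1.02 * ((m : ℝ) + K + 3 / 2) ^ 2 ≤ cc K) :
    rr * (L^[K]) a (m + 1) ^ 2 ≤ (L^[K]) a m * (L^[K]) a (m + 2) := by
  obtain ⟨B, hB, hp⟩ := perturb hb hc hm h
  have h0 := hp K le_rfl m le_rfl (by omega)
  have h1 := hp K le_rfl (m + 1) (by omega) (by omega)
  have h2 := hp K le_rfl (m + 2) (by omega) (by omega)
  obtain ⟨p0, q0⟩ := hB K m
  have p1 := (hB K (m + 1)).1
  have p2 := (hB K (m + 2)).1
  set a0 := (L^[K]) a m
  set a1 := (L^[K]) a (m + 1)
  set a2 := (L^[K]) a (m + 2)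
  set b0 := (L^[K]) B m
  set b1 := (L^[K]) B (m + 1)
  set b2 := (L^[K]) B (m + 2)
  have l0 : 99 / 100 * b0 ≤ a0 := by have := (abs_le.1 h0).1; linarith
  have l2 : 99 / 100 * b2 ≤ a2 := by have := (abs_le.1 h2).1; linarith
  have u1 : a1 ≤ 101 / 100 * b1 := by have := (abs_le.1 h1).2; linarith
  have l1 : 0 ≤ a1 := by have := (abs_le.1 h1).1; linarith
  have hexp : (2.77 : ℝ) ≤ Real.exp (cc K / ((m : ℝ) + K + 3 / 2) ^ 2) := by
    have hzp : (0 : ℝ) < ((m : ℝ) + K + 3 / 2) ^ 2 := by positivity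
    have h3 : (1.02 : ℝ) ≤ cc K / ((m : ℝ) + K + 3 / 2) ^ 2 := by
      rw [le_div_iff₀ hzp]; exact hz
    have h4 : Real.exp 1.02 ≤ Real.exp (cc K / ((m : ℝ) + K + 3 / 2) ^ 2) := Real.exp_le_exp.2 h3
    have h5 : Real.exp 1.02 = Real.exp 1 * Real.exp 0.02 := by
      rw [← Real.exp_add]; norm_num
    have h6 := Real.exp_one_gt_d9
    have h7 := Real.add_one_le_exp (0.02 : ℝ)
    have h8 : (2.7182818283 : ℝ) * 1.02 ≤ Real.exp 1 * Real.exp 0.02 := by
      refine mul_le_mul h6.le (by linarith) (by norm_num) (Real.exp_pos _).le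
    have : (2.77 : ℝ) ≤ 2.7182818283 * 1.02 := by norm_num
    linarith
  have k1 : 2.77 * b1 ^ 2 ≤ b0 * b2 := by
    refine le_trans ?_ q0
    exact mul_le_mul_of_nonneg_right hexp (by positivity)
  have k2 : a1 ^ 2 ≤ (101 / 100 * b1) ^ 2 := pow_le_pow_left₀ l1 u1 2
  have k3 : (99 / 100 * b0) * (99 / 100 * b2) ≤ a0 * a2 := by
    refine mul_le_mul l0 l2 (by positivity) (by linarith)
  have hrr := rr_lt
  have hrr0 := rr_gt
  have k4 : rr * a1 ^ 2 ≤ 2.619 * (101 / 100 * b1) ^ 2 :=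
    mul_le_mul hrr.le k2 (by positivity) (by norm_num)
  nlinarith [sq_nonneg b1]

/-- the large-ratio region is preserved -/
theorem region {a : ℕ → ℝ} {m : ℕ} (h1 : 0 < a (m + 1)) (h3 : 0 < a (m + 3))
    (r0 : rr * a (m + 1) ^ 2 ≤ a m * a (m + 2)) (r1 : rr * a (m + 2) ^ 2 ≤ a (m + 1) * a (m + 3))
    (r2 : rr * a (m + 3) ^ 2 ≤ a (m + 2) * a (m + 4)) :
    rr * L a (m + 1) ^ 2 ≤ L a m * L a (m + 2) := by
  have hr := rr_gt
  have e0 : (rr - 1) * a (m + 1) ^ 2 ≤ L a m := by simp only [L]; linarith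
  have e2 : (rr - 1) * a (m + 3) ^ 2 ≤ L a (m + 2) := by
    simp only [L]
    have : a (m + 2 + 1) = a (m + 3) := rfl
    have : a (m + 2 + 2) = a (m + 4) := rfl
    linarith
  have e1 : L a (m + 1) ≤ a (m + 1) * a (m + 3) := by
    simp only [L]
    have : a (m + 1 + 2) = a (m + 3) := rfl
    rw [this]
    have := sq_nonneg (a (m + 1 + 1))
    linarith
  have e1' : 0 ≤ L a (m + 1) := by
    simp only [L]
    have ha : a (m + 1 + 2) = a (m + 3) := rfl
    have hb : a (m + 1 + 1) = a (m + 2) := rfl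
    rw [ha, hb]
    nlinarith [sq_nonneg (a (m + 2))]
  have k1 : L a (m + 1) ^ 2 ≤ (a (m + 1) * a (m + 3)) ^ 2 := pow_le_pow_left₀ e1' e1 2
  calc rr * L a (m + 1) ^ 2 ≤ rr * (a (m + 1) * a (m + 3)) ^ 2 := by gcongr
    _ = (rr - 1) ^ 2 * (a (m + 1) * a (m + 3)) ^ 2 := by rw [rr_eq]
    _ = ((rr - 1) * a (m + 1) ^ 2) * ((rr - 1) * a (m + 3) ^ 2) := by ring
    _ ≤ L a m * L a (m + 2) := by
        refine mul_le_mul e0 e2 ?_ ?_
        · have : 0 < rr - 1 := by linarith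
          positivity
        · refine le_trans ?_ e0
          have : 0 < rr - 1 := by linarith
          positivity

theorem fifty_two {K m : ℕ} (hK : 12 ≤ K) (h : cc (K - 1) < 1.02 * ((m : ℝ) + K + 5 / 2) ^ 2) :
    52 ≤ m := by
  by_contra hm
  have hm1 : m ≤ 51 := by omega
  have hm2 : (m : ℝ) ≤ 51 := by exact_mod_cast hm1
  have key : ∀ j : ℕ, 1.02 * (((j : ℝ) + 12) + 53.5) ^ 2 ≤ cc (j + 11) := by
    intro j
    induction j with
    | zero => unfold cc; norm_num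
    | succ j ih =>
      have e : cc (j + 1 + 11) = 2 * cc (j + 11) + 2 := by
        unfold cc
        rw [show j + 1 + 11 = (j + 11) + 1 by ring, pow_succ]
        ring
      rw [e]
      push_cast
      have hj : (0 : ℝ) ≤ j := by positivity
      nlinarith
  obtain ⟨j, rfl⟩ : ∃ j, K = j + 12 := ⟨K - 12, by omega⟩
  have h1 := key j
  have h2 : j + 12 - 1 = j + 11 := by omega
  rw [h2] at h
  push_cast at h
  have h3 : ((m : ℝ) + (j + 12) + 5 / 2) ^ 2 ≤ (((j : ℝ) + 12) + 53.5) ^ 2 := by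
    have hj : (0 : ℝ) ≤ j := by positivity
    have hm0 : (0 : ℝ) ≤ m := by positivity
    refine pow_le_pow_left₀ (by positivity) ?_ 2
    linarith
  linarith

theorem assembly
    (h12 : ∀ K m : ℕ, 12 ≤ K → cc (K - 1) < 1.02 * ((m : ℝ) + K + 5 / 2) ^ 2 →
      100 * ∏ i ∈ Finset.range K, (3 * (1 + 2 * ((m : ℝ) + 2 * K + 2) ^ 2 / cc i)) ≤ 4 ^ m)
    (h11 : ∀ m : ℕ, 52 ≤ m →
      100 * ∏ i ∈ Finset.range 11, (3 * (1 + 2 * ((m : ℝ) + 2 * 11 + 2) ^ 2 / cc i)) ≤ 4 ^ m)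
    (a b : ℕ → ℝ) (hb : GoodSeq b) (hc : Close a b) (hf : FinCheck a) :
    ∀ k m : ℕ, 0 < (L^[k]) a m := by
  have h11' : ∀ m : ℕ, 52 ≤ m → 100 * ∏ i ∈ Finset.range 11,
      (3 * (1 + 2 * ((m : ℝ) + 2 * (11 : ℕ) + 2) ^ 2 / cc i)) ≤ 4 ^ m := by
    intro m hm
    have := h11 m hm
    push_cast
    exact this
  have hsmall : ∀ k m : ℕ, k ≤ 11 → 0 < (L^[k]) a m := by
    intro k m hk
    rcases le_total m 52 with hm | hm
    · exact hf.1 k hk m (by omega)
    · exact perturb_pos hb hc hm (h11' m hm) hk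
  have main : ∀ j : ℕ, (∀ m, 0 < (L^[j + 11]) a m) ∧
      ∀ m : ℕ, 1.02 * ((m : ℝ) + (j + 11 : ℕ) + 3 / 2) ^ 2 ≤ cc (j + 11) →
        rr * (L^[j + 11]) a (m + 1) ^ 2 ≤ (L^[j + 11]) a m * (L^[j + 11]) a (m + 2) := by
    intro j
    induction j with
    | zero =>
      refine ⟨fun m => hsmall _ m (by norm_num), fun m hz => ?_⟩
      rcases le_or_gt m 51 with hm | hm
      · have h1 := hf.2 m hm
        have h2 := rr_lt
        have h3 := sq_nonneg ((L^[11]) a (m + 1))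
        have e : (0 + 11 : ℕ) = 11 := rfl
        rw [e]
        nlinarith
      · exact perturb_ratio hb hc hm (h11' m hm) hz
    | succ j ih =>
      obtain ⟨ihP, ihR⟩ := ih
      have hK : 12 ≤ j + 1 + 11 := by omega
      have e : (L^[j + 1 + 11]) a = L ((L^[j + 11]) a) := by
        have e0 : j + 1 + 11 = (j + 11) + 1 := by ring
        rw [e0, Function.iterate_succ_apply']
      have hK1 : j + 1 + 11 - 1 = j + 11 := by omega
      refine ⟨fun m => ?_, fun m hz => ?_⟩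
      · rcases le_or_gt (1.02 * ((m : ℝ) + (j + 11 : ℕ) + 3 / 2) ^ 2) (cc (j + 11)) with hs | hs
        · have h1 := ihR m hs
          rw [e]
          have h2 := ihP (m + 1)
          have h3 := rr_gt
          have h4 : 0 < (L^[j + 11]) a (m + 1) ^ 2 := by positivity
          have h5 : L ((L^[j + 11]) a) m = (L^[j + 11]) a m * (L^[j + 11]) a (m + 2) -
            (L^[j + 11]) a (m + 1) ^ 2 := rfl
          rw [h5]
          nlinarith
        · have h1 : cc (j + 1 + 11 - 1) < 1.02 * ((m : ℝ) + (j + 1 + 11 : ℕ) + 5 / 2) ^ 2 := by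
            rw [hK1]
            refine hs.trans_le ?_
            have : ((m : ℝ) + (j + 11 : ℕ) + 3 / 2) ^ 2 ≤ ((m : ℝ) + (j + 1 + 11 : ℕ) + 5 / 2) ^ 2 := by
              refine pow_le_pow_left₀ (by positivity) ?_ 2
              push_cast
              linarith
            linarith
          exact perturb_pos hb hc (fifty_two hK h1) (h12 _ m hK h1) le_rfl
      · rcases le_or_gt (1.02 * ((m : ℝ) + (j + 1 + 11 : ℕ) + 5 / 2) ^ 2) (cc (j + 11)) with hs | hs
        · have hs2 : 1.02 * (((m + 2 : ℕ) : ℝ) + (j + 11 : ℕ) + 3 / 2) ^ 2 ≤ cc (j + 11) := by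
            refine le_trans (le_of_eq ?_) hs
            push_cast
            ring
          have hs1 : 1.02 * (((m + 1 : ℕ) : ℝ) + (j + 11 : ℕ) + 3 / 2) ^ 2 ≤ cc (j + 11) := by
            refine le_trans ?_ hs2
            have : (((m + 1 : ℕ) : ℝ) + (j + 11 : ℕ) + 3 / 2) ^ 2 ≤
                (((m + 2 : ℕ) : ℝ) + (j + 11 : ℕ) + 3 / 2) ^ 2 := by
              refine pow_le_pow_left₀ (by positivity) ?_ 2
              push_cast
              linarith
            linarith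
          have hs0 : 1.02 * ((m : ℝ) + (j + 11 : ℕ) + 3 / 2) ^ 2 ≤ cc (j + 11) := by
            refine le_trans ?_ hs1
            have : ((m : ℝ) + (j + 11 : ℕ) + 3 / 2) ^ 2 ≤
                (((m + 1 : ℕ) : ℝ) + (j + 11 : ℕ) + 3 / 2) ^ 2 := by
              refine pow_le_pow_left₀ (by positivity) ?_ 2
              push_cast
              linarith
            linarith
          have r0 := ihR m hs0
          have r1 := ihR (m + 1) hs1
          have r2 := ihR (m + 2) hs2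
          have := region (a := (L^[j + 11]) a) (m := m) (ihP _) (ihP _) r0 r1 r2
          rw [e]
          exact this
        · have h1 : cc (j + 1 + 11 - 1) < 1.02 * ((m : ℝ) + (j + 1 + 11 : ℕ) + 5 / 2) ^ 2 := by
            rw [hK1]; exact hs
          exact perturb_ratio hb hc (fifty_two hK h1) (h12 _ m hK h1) hz
  intro k m
  rcases le_total k 11 with hk | hk
  · exact hsmall k m hk
  · obtain ⟨j, rfl⟩ : ∃ j, k = j + 11 := ⟨k - 11, by omega⟩
    exact (main j).1 m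

end Pool.Agent.TH590.Apy
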